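import Mathlib

/-! MP_d741cf_al, H4 half: parts (2) and (3) of row 539 (helper9) in abstract form. -/

namespace FHL

/-- activity table: pattern `o` (index of the omitted pair), tube `t`. -/
def act (o : Fin 15) (t : Fin 9) : Bool :=
  (![![false, true, true, true, true, false, false, false, false],
  ![false, false, true, true, true, true, false, false, false],
  ![true, false, false, true, true, true, true, false, false],
  ![true, true, false, false, false, true, true, false, false],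
  ![true, true, true, false, false, false, true, false, false],
  ![false, false, true, true, false, true, false, true, false],
  ![false, false, false, true, false, true, true, true, false],
  ![false, true, false, false, true, true, true, true, false],
  ![false, true, true, false, true, false, true, false, false],
  ![false, false, false, true, false, false, true, true, true],
  ![false, false, false, false, true, false, true, true, true],
  ![false, false, true, false, true, true, true, false, true],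
  ![true, false, false, false, true, false, false, true, true],
  ![true, false, false, false, true, true, false, false, true],
  ![true, true, false, false, false, true, false, false, true]] : Fin 15 → Fin 9 → Bool) o t

/-- the exchange of the positions `i`, `i+1`. -/
def mv (i : Fin 4) (o : Fin 15) : Fin 15 :=
  (![![1, 0, 2, 3, 4, 5, 9, 10, 11, 6, 7, 8, 12, 13, 14],
  ![0, 2, 1, 3, 4, 6, 5, 7, 8, 9, 12, 13, 10, 11, 14],
  ![0, 1, 3, 2, 4, 5, 7, 6, 8, 10, 9, 11, 12, 14, 13],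
  ![0, 1, 2, 4, 3, 5, 6, 8, 7, 9, 11, 10, 13, 12, 14]] : Fin 4 → Fin 15 → Fin 15) i o

/-- `1,2,3,4` if exactly one of `0,5` is omitted (the other omitted point), else `0`. -/
def cls (o : Fin 15) : Fin 5 := (![1, 2, 3, 4, 0, 0, 0, 0, 1, 0, 0, 2, 0, 3, 4] : Fin 15 → Fin 5) o

theorem mv_mv : ∀ i o, mv i (mv i o) = o := by decide

theorem t12 : ∀ o, cls o = 2 → act o 0 = false ∧ act o 1 = false ∧ act o 2 = true ∧
    act o 4 = true ∧ act o 5 = true ∧ act o 7 = false := by decide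
theorem t11 : ∀ o, cls o = 1 → act o 0 = false ∧ act o 1 = true ∧ act o 2 = true ∧
    act o 4 = true ∧ act o 5 = false ∧ act o 7 = false := by decide
theorem t13 : ∀ o, cls o = 3 → act o 0 = true ∧ act o 1 = false ∧ act o 2 = false ∧
    act o 4 = true ∧ act o 5 = true ∧ act o 7 = false := by decide
theorem t14 : ∀ o, cls o = 4 → act o 0 = true ∧ act o 1 = true ∧ act o 2 = false ∧
    act o 4 = false ∧ act o 5 = true ∧ act o 7 = false := by decide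

theorem m0 : ∀ o, (cls o = 1 → cls (mv 0 o) = 2) ∧ (cls o = 2 → cls (mv 0 o) = 1) ∧
    (cls o = 3 → cls (mv 0 o) = 3) ∧ (cls o = 4 → cls (mv 0 o) = 4) := by decide
theorem m1 : ∀ o, (cls o = 1 → cls (mv 1 o) = 1) ∧ (cls o = 2 → cls (mv 1 o) = 3) ∧
    (cls o = 3 → cls (mv 1 o) = 2) ∧ (cls o = 4 → cls (mv 1 o) = 4) := by decide
theorem m2 : ∀ o, (cls o = 1 → cls (mv 2 o) = 1) ∧ (cls o = 2 → cls (mv 2 o) = 2) ∧
    (cls o = 3 → cls (mv 2 o) = 4) ∧ (cls o = 4 → cls (mv 2 o) = 3) := by decide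
theorem clsle : ∀ o, cls o ≠ 0 → cls o = 1 ∨ cls o = 2 ∨ cls o = 3 ∨ cls o = 4 := by decide

section

variable {G : Type*} [Group G] (s : Fin 4 → G) (z : Fin 9 → G)

/-- the tube `t` at the chamber `g`. -/
def T (t : Fin 9) (g : G) : G := g * z t * g⁻¹

/-- the data used by the local argument. -/
structure Dat (ac : G → Prop) (sim : G → G → Prop) (O : G → Fin 15) : Prop where
  z0 : z 0 = s 0
  z1 : z 1 = s 1
  z2 : z 2 = s 2
  z3 : z 3 = s 3
  r01 : s 0 * s 1 * s 0 * s 1 * s 0 = s 1 * s 0 * s 1 * s 0 * s 1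
  r12 : s 1 * s 2 * s 1 = s 2 * s 1 * s 2
  r23 : s 2 * s 3 * s 2 = s 3 * s 2 * s 3
  r02 : s 0 * s 2 = s 2 * s 0
  p0 : z 4 * s 0 = s 0 * z 4
  p1 : z 4 * s 1 = s 1 * z 4
  q1 : z 5 * s 1 = s 1 * z 5
  q2 : z 5 * s 2 = s 2 * z 5
  c56 : s 1 * s 2 * s 3 * z 5 = z 6 * (s 1 * s 2 * s 3)
  hO : ∀ g t, ac (T z t g) ↔ act (O g) t = true
  hmv : ∀ g i, O (g * s i) = O g ∨ O (g * s i) = mv i (O g)
  simC : ∀ x y, ac x → ac y → x * y = y * x → sim x y
  simT : ∀ x y w, sim x y → sim y w → sim x w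
  hb : ∀ g, ¬ ac (T z 2 g) → ¬ ac (T z 7 g) →
    ¬ sim (T z 4 (g * (s 1)⁻¹ * (s 2)⁻¹)) (T z 0 g)

variable {s z} {ac : G → Prop} {sim : G → G → Prop} {O : G → Fin 15}

theorem Dat.hmv' (D : Dat s z ac sim O) (g : G) (i : Fin 4) :
    O (g * (s i)⁻¹) = O g ∨ O (g * (s i)⁻¹) = mv i (O g) := by
  have h := D.hmv (g * (s i)⁻¹) i
  rw [inv_mul_cancel_right] at h
  rcases h with h | h
  · exact Or.inl h.symm
  · right; rw [h, mv_mv]

/-- moves by `a`, in both directions. -/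
theorem Dat.ma (D : Dat s z ac sim O) (g : G) {x : G} (hx : x = g * s 0 ∨ x = g * (s 0)⁻¹) :
    (cls (O g) = 1 → cls (O x) = 1 ∨ cls (O x) = 2) ∧
    (cls (O g) = 2 → cls (O x) = 1 ∨ cls (O x) = 2) ∧
    (cls (O g) = 3 → cls (O x) = 3) ∧ (cls (O g) = 4 → cls (O x) = 4) := by
  have h : O x = O g ∨ O x = mv 0 (O g) := by
    rcases hx with rfl | rfl
    · exact D.hmv g 0
    · exact D.hmv' g 0
  obtain ⟨h1, h2, h3, h4⟩ := m0 (O g)
  rcases h with h | h <;> rw [h]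
  · exact ⟨fun h => Or.inl h, fun h => Or.inr h, id, id⟩
  · exact ⟨fun h => Or.inr (h1 h), fun h => Or.inl (h2 h), h3, h4⟩

theorem Dat.mb (D : Dat s z ac sim O) (g : G) {x : G} (hx : x = g * s 1 ∨ x = g * (s 1)⁻¹) :
    (cls (O g) = 1 → cls (O x) = 1) ∧
    (cls (O g) = 2 → cls (O x) = 2 ∨ cls (O x) = 3) ∧
    (cls (O g) = 3 → cls (O x) = 2 ∨ cls (O x) = 3) ∧ (cls (O g) = 4 → cls (O x) = 4) := by
  have h : O x = O g ∨ O x = mv 1 (O g) := by
    rcases hx with rfl | rfl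
    · exact D.hmv g 1
    · exact D.hmv' g 1
  obtain ⟨h1, h2, h3, h4⟩ := m1 (O g)
  rcases h with h | h <;> rw [h]
  · exact ⟨id, fun h => Or.inl h, fun h => Or.inr h, id⟩
  · exact ⟨h1, fun h => Or.inr (h2 h), fun h => Or.inl (h3 h), h4⟩

theorem Dat.mc (D : Dat s z ac sim O) (g : G) {x : G} (hx : x = g * s 2 ∨ x = g * (s 2)⁻¹) :
    (cls (O g) = 1 → cls (O x) = 1) ∧
    (cls (O g) = 2 → cls (O x) = 2) ∧
    (cls (O g) = 3 → cls (O x) = 3 ∨ cls (O x) = 4) ∧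
    (cls (O g) = 4 → cls (O x) = 3 ∨ cls (O x) = 4) := by
  have h : O x = O g ∨ O x = mv 2 (O g) := by
    rcases hx with rfl | rfl
    · exact D.hmv g 2
    · exact D.hmv' g 2
  obtain ⟨h1, h2, h3, h4⟩ := m2 (O g)
  rcases h with h | h <;> rw [h]
  · exact ⟨id, id, fun h => Or.inl h, fun h => Or.inr h⟩
  · exact ⟨h1, h2, fun h => Or.inr (h3 h), fun h => Or.inl (h4 h)⟩

/-- two tubes are the same element. -/
theorem T_eq {t t' : Fin 9} {g g' : G} (h : (g'⁻¹ * g) * z t = z t' * (g'⁻¹ * g)) :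
    T z t g = T z t' g' := by
  unfold T
  have : g * z t * g⁻¹ = g' * ((g'⁻¹ * g) * z t) * g⁻¹ := by group
  rw [this, h]; group

theorem Dat.eq_act (D : Dat s z ac sim O) {t t' : Fin 9} {g g' : G}
    (h : T z t g = T z t' g') : act (O g) t = act (O g') t' := by
  have h1 := D.hO g t
  have h2 := D.hO g' t'
  rw [h] at h1
  rw [Bool.eq_iff_iff]
  exact h1.symm.trans h2

/-- (i) -/
theorem Dat.i1 (D : Dat s z ac sim O) {h : G} (h2 : cls (O h) = 2) :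
    cls (O (h * s 1)) = 3 := by
  have e : T z 2 (h * s 1) = T z 1 (h * (s 2)⁻¹) := by
    apply T_eq
    rw [D.z1, D.z2]
    calc (h * (s 2)⁻¹)⁻¹ * (h * s 1) * s 2 = s 2 * s 1 * s 2 := by group
      _ = s 1 * s 2 * s 1 := D.r12.symm
      _ = s 1 * ((h * (s 2)⁻¹)⁻¹ * (h * s 1)) := by group
  have e1 := D.eq_act e
  have c1 : cls (O (h * (s 2)⁻¹)) = 2 := (D.mc h (Or.inr rfl)).2.1 h2
  rw [(t12 _ c1).2.1] at e1
  rcases (D.mb h (Or.inl rfl)).2.1 h2 with h3 | h3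
  · rw [(t12 _ h3).2.2.1] at e1; exact absurd e1 (by decide)
  · exact h3

theorem Dat.i2 (D : Dat s z ac sim O) {h : G} (h2 : cls (O h) = 2) :
    cls (O (h * (s 1)⁻¹)) = 3 := by
  have e : T z 2 (h * (s 1)⁻¹) = T z 1 (h * s 2) := by
    apply T_eq
    rw [D.z1, D.z2]
    calc (h * s 2)⁻¹ * (h * (s 1)⁻¹) * s 2
        = (s 2)⁻¹ * (s 1)⁻¹ * (s 2 * s 1 * s 2) * ((s 2)⁻¹ * (s 1)⁻¹) := by group
      _ = (s 2)⁻¹ * (s 1)⁻¹ * (s 1 * s 2 * s 1) * ((s 2)⁻¹ * (s 1)⁻¹) := by rw [D.r12]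
      _ = s 1 * ((h * s 2)⁻¹ * (h * (s 1)⁻¹)) := by group
  have e1 := D.eq_act e
  have c1 : cls (O (h * s 2)) = 2 := (D.mc h (Or.inl rfl)).2.1 h2
  rw [(t12 _ c1).2.1] at e1
  rcases (D.mb h (Or.inr rfl)).2.1 h2 with h3 | h3
  · rw [(t12 _ h3).2.2.1] at e1; exact absurd e1 (by decide)
  · exact h3

theorem T_comm {t : Fin 9} {g w : G} (h : w * z t = z t * w) : T z t (g * w) = T z t g := by
  apply T_eq
  rw [inv_mul_cancel_left]; exact h

theorem T_comm' {t : Fin 9} {g w : G} (h : z t * w = w * z t) : T z t (g * w⁻¹) = T z t g := by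
  apply T_eq
  rw [inv_mul_cancel_left, inv_mul_eq_iff_eq_mul, ← mul_assoc, ← h, mul_inv_cancel_right]

/-- (ii) -/
theorem Dat.ii (D : Dat s z ac sim O) {h : G} (h2 : cls (O h) = 2) :
    cls (O (h * s 1 * (s 2)⁻¹)) = 3 := by
  rcases (D.mc (h * s 1) (Or.inr rfl)).2.2.1 (D.i1 h2) with h3 | h4
  · exact h3
  exfalso
  -- the chamber `h b C a`
  have c1 : cls (O (h * s 1 * (s 2)⁻¹ * s 0)) = 4 := (D.ma _ (Or.inl rfl)).2.2.2 h4
  have hac : (s 0)⁻¹ * (s 2)⁻¹ * s 0 = (s 2)⁻¹ := by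
    calc (s 0)⁻¹ * (s 2)⁻¹ * s 0 = (s 0)⁻¹ * (s 2)⁻¹ * (s 0 * s 2) * (s 2)⁻¹ := by group
      _ = (s 0)⁻¹ * (s 2)⁻¹ * (s 2 * s 0) * (s 2)⁻¹ := by rw [D.r02]
      _ = (s 2)⁻¹ := by group
  have hw : (h * s 1 * s 0 * s 1)⁻¹ * (h * s 1 * (s 2)⁻¹ * s 0) = (s 1)⁻¹ * (s 2)⁻¹ := by
    calc (h * s 1 * s 0 * s 1)⁻¹ * (h * s 1 * (s 2)⁻¹ * s 0)
        = (s 1)⁻¹ * ((s 0)⁻¹ * (s 2)⁻¹ * s 0) := by group
      _ = (s 1)⁻¹ * (s 2)⁻¹ := by rw [hac]
  have e1 : T z 1 (h * s 1 * (s 2)⁻¹ * s 0) = T z 2 (h * s 1 * s 0 * s 1) := by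
    apply T_eq
    rw [D.z1, D.z2, hw]
    calc (s 1)⁻¹ * (s 2)⁻¹ * s 1 = (s 1)⁻¹ * (s 2)⁻¹ * (s 1 * s 2 * s 1) * (s 1)⁻¹ * (s 2)⁻¹ := by
          group
      _ = (s 1)⁻¹ * (s 2)⁻¹ * (s 2 * s 1 * s 2) * (s 1)⁻¹ * (s 2)⁻¹ := by rw [D.r12]
      _ = s 2 * ((s 1)⁻¹ * (s 2)⁻¹) := by group
  have e2 : T z 5 (h * s 1 * (s 2)⁻¹ * s 0) = T z 5 (h * s 1 * s 0 * s 1) := by
    apply T_eq
    rw [hw]
    have := D.q1
    have := D.q2
    calc (s 1)⁻¹ * (s 2)⁻¹ * z 5 = (s 1)⁻¹ * (s 2)⁻¹ * (z 5 * s 2) * (s 2)⁻¹ := by group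
      _ = (s 1)⁻¹ * (s 2)⁻¹ * (s 2 * z 5) * (s 2)⁻¹ := by rw [D.q2]
      _ = (s 1)⁻¹ * (z 5 * s 1) * (s 1)⁻¹ * (s 2)⁻¹ := by group
      _ = (s 1)⁻¹ * (s 1 * z 5) * (s 1)⁻¹ * (s 2)⁻¹ := by rw [D.q1]
      _ = z 5 * ((s 1)⁻¹ * (s 2)⁻¹) := by group
  have e3 : T z 0 (h * s 1 * s 0 * s 1) = T z 1 (h * (s 0)⁻¹) := by
    apply T_eq
    rw [D.z0, D.z1]
    calc (h * (s 0)⁻¹)⁻¹ * (h * s 1 * s 0 * s 1) * s 0 = s 0 * s 1 * s 0 * s 1 * s 0 := by group
      _ = s 1 * s 0 * s 1 * s 0 * s 1 := D.r01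
      _ = s 1 * ((h * (s 0)⁻¹)⁻¹ * (h * s 1 * s 0 * s 1)) := by group
  have e4 : T z 1 (h * s 1 * s 0 * s 1) = T z 0 (h * (s 0)⁻¹ * (s 1)⁻¹) := by
    apply T_eq
    rw [D.z0, D.z1]
    calc (h * (s 0)⁻¹ * (s 1)⁻¹)⁻¹ * (h * s 1 * s 0 * s 1) * s 1
        = (s 1 * s 0 * s 1 * s 0 * s 1) * s 1 := by group
      _ = (s 0 * s 1 * s 0 * s 1 * s 0) * s 1 := by rw [D.r01]
      _ = s 0 * ((h * (s 0)⁻¹ * (s 1)⁻¹)⁻¹ * (h * s 1 * s 0 * s 1)) := by group
  have f1 := D.eq_act e1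
  have f2 := D.eq_act e2
  have f3 := D.eq_act e3
  have f4 := D.eq_act e4
  rw [(t14 _ c1).2.1] at f1
  rw [(t14 _ c1).2.2.2.2.1] at f2
  have c2 : cls (O (h * s 1 * s 0 * s 1)) = 2 := by
    revert f1 f2
    have hne : cls (O (h * s 1 * s 0 * s 1)) ≠ 0 := by
      have a1 := D.i1 h2
      have a2 := (D.ma _ (Or.inl rfl)).2.2.1 a1
      rcases (D.mb _ (Or.inl rfl)).2.2.1 a2 with a3 | a3 <;> rw [a3] <;> decide
    generalize O (h * s 1 * s 0 * s 1) = o at hne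
    revert o; decide
  rw [(t12 _ c2).1] at f3
  rw [(t12 _ c2).2.1] at f4
  have c3 : cls (O (h * (s 0)⁻¹)) = 2 := by
    rcases (D.ma h (Or.inr rfl)).2.1 h2 with a | a
    · rw [(t11 _ a).2.1] at f3; exact absurd f3 (by decide)
    · exact a
  rw [(t13 _ (D.i2 c3)).1] at f4
  exact absurd f4 (by decide)

theorem T_T_comm {t t' : Fin 9} {g : G} (h : z t * z t' = z t' * z t) :
    T z t g * T z t' g = T z t' g * T z t g := by
  unfold T
  calc g * z t * g⁻¹ * (g * z t' * g⁻¹) = g * (z t * z t') * g⁻¹ := by group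
    _ = g * (z t' * z t) * g⁻¹ := by rw [h]
    _ = g * z t' * g⁻¹ * (g * z t * g⁻¹) := by group

/-- (iii) -/
theorem Dat.no2 (D : Dat s z ac sim O) (h : G) : cls (O h) ≠ 2 := by
  intro h2
  have hb1 := D.i1 h2
  have hC := (D.mc h (Or.inr rfl)).2.1 h2
  have hCB := D.i2 hC
  have hbC := D.ii h2
  have X : ¬ ac (T z 2 (h * s 1)) := by rw [D.hO, (t13 _ hb1).2.2.1]; decide
  have X0 : ¬ ac (T z 7 (h * s 1)) := by rw [D.hO, (t13 _ hb1).2.2.2.2.2]; decide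
  have V0 : ac (T z 4 (h * (s 2)⁻¹)) := by rw [D.hO, (t12 _ hC).2.2.2.1]
  have V1 : ac (T z 0 (h * (s 2)⁻¹ * (s 1)⁻¹)) := by rw [D.hO, (t13 _ hCB).1]
  have V2 : ac (T z 4 (h * s 1 * (s 2)⁻¹)) := by rw [D.hO, (t13 _ hbC).2.2.2.1]
  have V3 : ac (T z 0 (h * s 1)) := by rw [D.hO, (t13 _ hb1).1]
  have z40 : z 4 * z 0 = z 0 * z 4 := by rw [D.z0]; exact D.p0
  have z02 : z 0 * s 2 = s 2 * z 0 := by rw [D.z0]; exact D.r02
  have k01 : T z 4 (h * (s 2)⁻¹) * T z 0 (h * (s 2)⁻¹ * (s 1)⁻¹)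
      = T z 0 (h * (s 2)⁻¹ * (s 1)⁻¹) * T z 4 (h * (s 2)⁻¹) := by
    rw [← T_comm' (z := z) (g := h * (s 2)⁻¹) D.p1]
    exact T_T_comm z40
  have e1 : T z 0 (h * (s 2)⁻¹ * (s 1)⁻¹) = T z 0 (h * s 1 * (s 2)⁻¹ * (s 1)⁻¹) := by
    apply T_eq
    have hw : (h * s 1 * (s 2)⁻¹ * (s 1)⁻¹)⁻¹ * (h * (s 2)⁻¹ * (s 1)⁻¹) = (s 2)⁻¹ := by
      calc (h * s 1 * (s 2)⁻¹ * (s 1)⁻¹)⁻¹ * (h * (s 2)⁻¹ * (s 1)⁻¹)
          = s 1 * s 2 * ((s 1)⁻¹ * (s 2)⁻¹ * (s 1)⁻¹) := by group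
        _ = s 1 * s 2 * (s 1 * s 2 * s 1)⁻¹ := by group
        _ = s 1 * s 2 * (s 2 * s 1 * s 2)⁻¹ := by rw [D.r12]
        _ = (s 2)⁻¹ := by group
    rw [hw, inv_mul_eq_iff_eq_mul, ← mul_assoc, ← z02, mul_inv_cancel_right]
  have k12 : T z 0 (h * (s 2)⁻¹ * (s 1)⁻¹) * T z 4 (h * s 1 * (s 2)⁻¹)
      = T z 4 (h * s 1 * (s 2)⁻¹) * T z 0 (h * (s 2)⁻¹ * (s 1)⁻¹) := by
    rw [e1, ← T_comm' (z := z) (g := h * s 1 * (s 2)⁻¹) D.p1]
    exact T_T_comm z40.symm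
  have k23 : T z 4 (h * s 1 * (s 2)⁻¹) * T z 0 (h * s 1)
      = T z 0 (h * s 1) * T z 4 (h * s 1 * (s 2)⁻¹) := by
    rw [← T_comm' (z := z) (g := h * s 1) z02]
    exact T_T_comm z40
  have s01 := D.simC _ _ V0 V1 k01
  have s12 := D.simC _ _ V1 V2 k12
  have s23 := D.simC _ _ V2 V3 k23
  refine D.hb (h * s 1) X X0 ?_
  rw [mul_inv_cancel_right]
  exact D.simT _ _ _ (D.simT _ _ _ s01 s12) s23

/-- `b @ g = a @ (g a b a b)` -/
theorem Dat.cab (D : Dat s z ac sim O) (g : G) :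
    T z 1 g = T z 0 (g * s 0 * s 1 * s 0 * s 1) := by
  apply T_eq
  rw [D.z0, D.z1]
  calc (g * s 0 * s 1 * s 0 * s 1)⁻¹ * g * s 1
      = (s 0 * s 1 * s 0 * s 1)⁻¹ * (s 1 * s 0 * s 1 * s 0 * s 1) * (s 0 * s 1 * s 0 * s 1)⁻¹ := by
        group
    _ = (s 0 * s 1 * s 0 * s 1)⁻¹ * (s 0 * s 1 * s 0 * s 1 * s 0) * (s 0 * s 1 * s 0 * s 1)⁻¹ := by
        rw [D.r01]
    _ = s 0 * ((g * s 0 * s 1 * s 0 * s 1)⁻¹ * g) := by group

/-- `a @ g = b @ (g b a b a)` -/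
theorem Dat.cba (D : Dat s z ac sim O) (g : G) :
    T z 0 g = T z 1 (g * s 1 * s 0 * s 1 * s 0) := by
  apply T_eq
  rw [D.z0, D.z1]
  calc (g * s 1 * s 0 * s 1 * s 0)⁻¹ * g * s 0
      = (s 1 * s 0 * s 1 * s 0)⁻¹ * (s 0 * s 1 * s 0 * s 1 * s 0) * (s 1 * s 0 * s 1 * s 0)⁻¹ := by
        group
    _ = (s 1 * s 0 * s 1 * s 0)⁻¹ * (s 1 * s 0 * s 1 * s 0 * s 1) * (s 1 * s 0 * s 1 * s 0)⁻¹ := by
        rw [D.r01]
    _ = s 1 * ((g * s 1 * s 0 * s 1 * s 0)⁻¹ * g) := by group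

/-- `c @ g = b @ (g b c)` -/
theorem Dat.cbc (D : Dat s z ac sim O) (g : G) : T z 2 g = T z 1 (g * s 1 * s 2) := by
  apply T_eq
  rw [D.z1, D.z2]
  calc (g * s 1 * s 2)⁻¹ * g * s 2 = (s 1 * s 2)⁻¹ * (s 2 * s 1 * s 2) * (s 1 * s 2)⁻¹ := by group
    _ = (s 1 * s 2)⁻¹ * (s 1 * s 2 * s 1) * (s 1 * s 2)⁻¹ := by rw [D.r12]
    _ = s 1 * ((g * s 1 * s 2)⁻¹ * g) := by group

/-- `b @ g = c @ (g c b)` -/
theorem Dat.ccb (D : Dat s z ac sim O) (g : G) : T z 1 g = T z 2 (g * s 2 * s 1) := by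
  apply T_eq
  rw [D.z1, D.z2]
  calc (g * s 2 * s 1)⁻¹ * g * s 1 = (s 2 * s 1)⁻¹ * (s 1 * s 2 * s 1) * (s 2 * s 1)⁻¹ := by group
    _ = (s 2 * s 1)⁻¹ * (s 2 * s 1 * s 2) * (s 2 * s 1)⁻¹ := by rw [D.r12]
    _ = s 2 * ((g * s 2 * s 1)⁻¹ * g) := by group

/-- `d @ g = c @ (g c d)` -/
theorem Dat.ccd (D : Dat s z ac sim O) (g : G) : T z 3 g = T z 2 (g * s 2 * s 3) := by
  apply T_eq
  rw [D.z2, D.z3]
  calc (g * s 2 * s 3)⁻¹ * g * s 3 = (s 2 * s 3)⁻¹ * (s 3 * s 2 * s 3) * (s 2 * s 3)⁻¹ := by group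
    _ = (s 2 * s 3)⁻¹ * (s 2 * s 3 * s 2) * (s 2 * s 3)⁻¹ := by rw [D.r23]
    _ = s 2 * ((g * s 2 * s 3)⁻¹ * g) := by group

/-- (iv) -/
theorem Dat.cls0 (D : Dat s z ac sim O) (g : G) : cls (O g) = 0 := by
  have n1 : ∀ g, cls (O g) ≠ 1 := by
    intro g h1
    have a1 : ∀ x : G, cls (O x) = 1 → cls (O (x * s 0)) = 1 := fun x hx => by
      rcases (D.ma x (Or.inl rfl)).1 hx with h | h
      · exact h
      · exact absurd h (D.no2 _)
    have b1 : ∀ x : G, cls (O x) = 1 → cls (O (x * s 1)) = 1 := fun x hx =>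
      (D.mb x (Or.inl rfl)).1 hx
    have e := D.eq_act (D.cab g)
    rw [(t11 _ h1).2.1, (t11 _ (b1 _ (a1 _ (b1 _ (a1 _ h1))))).1] at e
    exact absurd e (by decide)
  have a3 : ∀ x : G, cls (O x) = 3 → cls (O (x * s 0)) = 3 := fun x hx =>
    (D.ma x (Or.inl rfl)).2.2.1 hx
  have n3 : ∀ g, cls (O g) ≠ 3 := by
    intro g h1
    have b3 : ∀ x : G, cls (O x) = 3 → cls (O (x * s 1)) = 3 := fun x hx => by
      rcases (D.mb x (Or.inl rfl)).2.2.1 hx with h | h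
      · exact absurd h (D.no2 _)
      · exact h
    have e := D.eq_act (D.cab g)
    rw [(t13 _ h1).2.1, (t13 _ (b3 _ (a3 _ (b3 _ (a3 _ h1))))).1] at e
    exact absurd e (by decide)
  by_contra hne
  rcases clsle _ hne with h | h | h | h
  · exact n1 _ h
  · exact D.no2 _ h
  · exact n3 _ h
  · have h5 : cls (O (g * s 1)) = 4 := (D.mb g (Or.inl rfl)).2.2.2 h
    have h6 : cls (O (g * s 1 * s 2)) = 4 := by
      rcases (D.mc (g * s 1) (Or.inl rfl)).2.2.2 h5 with h | h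
      · exact absurd h (n3 _)
      · exact h
    have e := D.eq_act (D.cbc g)
    rw [(t14 _ h).2.2.1, (t14 _ h6).2.1] at e
    exact absurd e (by decide)

theorem Dat.list (D : Dat s z ac sim O) (g : G) : O g = 4 ∨ O g = 5 ∨ O g = 6 ∨ O g = 7 ∨
    O g = 9 ∨ O g = 10 ∨ O g = 12 := by
  have h := D.cls0 g
  revert h
  generalize O g = o
  revert o; decide

/-- the conclusion of the local argument. -/
theorem Dat.false (D : Dat s z ac sim O) : False := by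
  -- case I
  have n4 : ∀ g, O g ≠ 4 := by
    intro g h
    have h1 : O (g * s 2) = 4 := by
      rcases D.hmv g 2 with h1 | h1 <;> rw [h1, h] <;> rfl
    have h2 : O (g * s 2 * s 3) = 4 := by
      rcases D.hmv (g * s 2) 3 with h2 | h2
      · rw [h2, h1]
      · have := D.cls0 (g * s 2 * s 3)
        rw [h2, h1] at this
        exact absurd this (by decide)
    have e := D.eq_act (D.ccd g)
    rw [h, h2] at e
    exact absurd e (by decide)
  -- `d` active forces the pattern 5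
  have d5 : ∀ g, act (O g) 3 = true → O g = 5 := by
    intro g h
    have e := D.eq_act (D.ccd g)
    rw [h] at e
    have h3 : O (g * s 2 * s 3) = 5 := by
      have l := D.list (g * s 2 * s 3)
      have n := n4 (g * s 2 * s 3)
      revert e l n
      generalize O (g * s 2 * s 3) = o
      revert o; decide
    have h2 : O (g * s 2) = 5 := by
      rcases D.hmv (g * s 2) 3 with h2 | h2
      · rw [← h2, h3]
      · rw [h3] at h2
        have := congrArg (mv 3) h2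
        rw [mv_mv] at this
        rw [← this]; rfl
    rcases D.hmv g 2 with h1 | h1
    · rw [← h1, h2]
    · rw [h2] at h1
      have := congrArg (mv 2) h1
      rw [mv_mv] at this
      rw [← this]; rfl
  have n5 : ∀ g, O g ≠ 5 := by
    intro g h
    have h1 : O (g * s 1) = 5 := by
      rcases D.hmv g 1 with h1 | h1
      · rw [h1, h]
      · apply d5
        rw [h1, h]; rfl
    have h2 : O (g * s 1 * s 2) = 5 := by
      rcases D.hmv (g * s 1) 2 with h2 | h2 <;> rw [h2, h1] <;> rfl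
    have e := D.eq_act (D.cbc g)
    rw [h, h2] at e
    exact absurd e (by decide)
  have l1 : ∀ g, O g = 7 ∨ O g = 10 ∨ O g = 12 := by
    intro g
    have l := D.list g
    have n := n4 g
    have m := n5 g
    have d : act (O g) 3 = true → O g = 5 := d5 g
    revert l n m d
    generalize O g = o
    revert o; decide
  have l2 : ∀ g, O g = 10 ∨ O g = 12 := by
    intro g
    have e := D.eq_act (D.ccb g)
    have l := l1 g
    have l' := l1 (g * s 2 * s 1)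
    revert e l l'
    generalize O g = o
    generalize O (g * s 2 * s 1) = o'
    revert o o'; decide
  have l3 : ∀ g, O g = 10 := by
    intro g
    have e := D.eq_act (D.cba g)
    have l := l2 g
    have l' := l2 (g * s 1 * s 0 * s 1 * s 0)
    revert e l l'
    generalize O g = o
    generalize O (g * s 1 * s 0 * s 1 * s 0) = o'
    revert o o'; decide
  have e : T z 6 (1 : G) = T z 5 (s 1 * s 2 * s 3) := by
    unfold T
    rw [D.c56]; group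
  have f := D.eq_act e
  rw [l3, l3] at f
  exact absurd f (by decide)

end

end FHL
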